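import Pool.Agent.Lib_helper43.PJ.D

/-!
Extension of derivations along formally etale maps.
-/

noncomputable section

namespace PicJump

open Polynomial

theorem der_ext (S T : Type) [CommRing S] [CommRing T] [Algebra S T]
    [Algebra.FormallyEtale S T] (d : Derivation ℤ S T) :
    ∃ e : Derivation ℤ T T, ∀ x, e (algebraMap S T x) = d x := by
  let g : TensorProduct S T (KaehlerDifferential ℤ S) →ₗ[T] T :=
    LinearMap.liftBaseChange T d.liftKaehlerDifferential
  let h : KaehlerDifferential ℤ T →ₗ[T] T :=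
    g ∘ₗ (KaehlerDifferential.tensorKaehlerEquivOfFormallyEtale ℤ S T).symm.toLinearMap
  refine ⟨h.compDer (KaehlerDifferential.D ℤ T), fun x => ?_⟩
  show g ((KaehlerDifferential.tensorKaehlerEquivOfFormallyEtale ℤ S T).symm
    (KaehlerDifferential.D ℤ T (algebraMap S T x))) = d x
  rw [KaehlerDifferential.tensorKaehlerEquivOfFormallyEtale_symm_D_algebraMap]
  simp only [g, LinearMap.liftBaseChange_tmul, one_smul]
  exact d.liftKaehlerDifferential_comp_D x

theorem der_ext' (S T : Type) [CommRing S] [CommRing T] [Algebra S T]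
    [Algebra.FormallyEtale S T] (d : Derivation ℤ S S) :
    ∃ e : Derivation ℤ T T, ∀ x, e (algebraMap S T x) = algebraMap S T (d x) :=
  der_ext S T ((Algebra.linearMap S T).compDer d)

theorem der_transport {A : Type} [CommRing A] (i1 i2 : Algebra ℤ A) (p : (A → A) → Prop)
    (h : ∃ e : @Derivation ℤ A A _ _ _ i1 _ (AddCommGroup.toIntModule A), p fun x => e x) :
    ∃ e : @Derivation ℤ A A _ _ _ i2 _ (AddCommGroup.toIntModule A), p fun x => e x := by
  have hi : i1 = i2 := Subsingleton.elim _ _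
  subst hi
  exact h

theorem der_ratFunc (k : Type) [Field k] (d : Derivation ℤ k[X] k[X]) :
    ∃ e : @Derivation ℤ (RatFunc k) (RatFunc k) _ _ _ (Ring.toIntAlgebra (RatFunc k)) _
        (AddCommGroup.toIntModule (RatFunc k)),
      ∀ p : k[X], e (algebraMap k[X] (RatFunc k) p) = algebraMap k[X] (RatFunc k) (d p) := by
  have : Algebra.FormallyEtale k[X] (RatFunc k) :=
    Algebra.FormallyEtale.of_isLocalization (nonZeroDivisors k[X])
  obtain ⟨e, he⟩ := der_ext k[X] (RatFunc k)
    ((Algebra.linearMap k[X] (RatFunc k)).compDer d)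
  exact ⟨e, he⟩

/-- `d/da` on `k(a)` -/
theorem der_ddX (k : Type) [Field k] :
    ∃ δ : @Derivation ℤ (RatFunc k) (RatFunc k) _ _ _ (Ring.toIntAlgebra (RatFunc k)) _
        (AddCommGroup.toIntModule (RatFunc k)), δ RatFunc.X = 1 ∧
      ∀ c : k, δ (RatFunc.C c) = 0 := by
  obtain ⟨δ, hδ⟩ := der_ratFunc k ((Polynomial.derivative' (R := k)).restrictScalars ℤ)
  refine ⟨δ, ?_, fun c => ?_⟩
  · rw [← RatFunc.algebraMap_X, hδ]
    show algebraMap k[X] (RatFunc k) (derivative X) = 1
    rw [derivative_X, map_one]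
  · rw [← RatFunc.algebraMap_C, hδ]
    show algebraMap k[X] (RatFunc k) (derivative (C c)) = 0
    rw [derivative_C, map_zero]

/-- the coefficientwise derivation of `k(a)` -/
theorem der_coeff (k : Type) [Field k] (d : Derivation ℤ k k) :
    ∃ D : @Derivation ℤ (RatFunc k) (RatFunc k) _ _ _ (Ring.toIntAlgebra (RatFunc k)) _
        (AddCommGroup.toIntModule (RatFunc k)), D RatFunc.X = 0 ∧
      ∀ c : k, D (RatFunc.C c) = RatFunc.C (d c) := by
  letI : Differential k := ⟨d⟩
  obtain ⟨D, hD⟩ := der_ratFunc k Differential.mapCoeffs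
  refine ⟨D, ?_, fun c => ?_⟩
  · rw [← RatFunc.algebraMap_X, hD, Differential.mapCoeffs_X, map_zero]
  · rw [← RatFunc.algebraMap_C, hD, Differential.mapCoeffs_C, RatFunc.algebraMap_C]
    rfl

theorem der_genField (k : Type) [Field k] [CharZero k] :
    ∃ e : @Derivation ℤ (AlgebraicClosure (RatFunc k)) (AlgebraicClosure (RatFunc k)) _ _ _
        (Ring.toIntAlgebra (AlgebraicClosure (RatFunc k))) _
        (AddCommGroup.toIntModule (AlgebraicClosure (RatFunc k))),
      e (algebraMap (RatFunc k) _ RatFunc.X) = 1 ∧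
      ∀ c : k, e (algebraMap (RatFunc k) _ (RatFunc.C c)) = 0 := by
  obtain ⟨δ, h1, h2⟩ := der_ddX k
  have : Algebra.FormallyEtale (RatFunc k) (AlgebraicClosure (RatFunc k)) :=
    Algebra.FormallyEtale.of_isSeparable _ _
  obtain ⟨e, he⟩ := der_ext' (RatFunc k) (AlgebraicClosure (RatFunc k)) δ
  refine ⟨e, ?_, fun c => ?_⟩
  · rw [he]
    exact (congrArg (algebraMap (RatFunc k) (AlgebraicClosure (RatFunc k))) h1).trans
      (map_one _)
  · rw [he]
    exact (congrArg (algebraMap (RatFunc k) (AlgebraicClosure (RatFunc k))) (h2 c)).trans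
      (map_zero _)

end PicJump

end
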