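import Pool.Agent.Lib_helper43.PJ.D

/-!
Small tools for the blocks GEN and SPEC.
-/

noncomputable section

namespace PicJump

open Polynomial

section

variable {k : Type} [Field k]

theorem kit_Fp_natDegree (s : k) : (Fp s).natDegree = 4 := by
  unfold Fp
  compute_degree!

theorem kit_Fp_ne_zero (s : k) : Fp s ≠ 0 := by
  intro h
  have := kit_Fp_natDegree s
  rw [h, natDegree_zero] at this
  omega

theorem kit_Fr_ne_zero (s : k) : Fr s ≠ 0 := by
  unfold Fr
  exact (map_ne_zero_iff _ (RatFunc.algebraMap_injective k)).2 (kit_Fp_ne_zero s)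

variable [CharZero k]

theorem kit_Fp_separable {s : k} (hs : s ^ 2 ≠ 4) : (Fp s).Separable := by
  have hK : (2 * (s ^ 2 - 4) : k) ≠ 0 := mul_ne_zero (by norm_num) (sub_ne_zero.2 hs)
  have hd : derivative (Fp s) = 4 * X ^ 3 + C s * (2 * X) := by
    unfold Fp
    simp only [derivative_add, derivative_mul, derivative_pow, derivative_C, derivative_X,
      derivative_one, Nat.cast_ofNat, map_ofNat]
    ring
  refine ⟨C (2 * (s ^ 2 - 4))⁻¹ * (C (2 * (s ^ 2 - 4)) + 8 * X * (X ^ 3 + C s * X)),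
    - (C (2 * (s ^ 2 - 4))⁻¹ * ((C s + 2 * X ^ 2) * (X ^ 3 + C s * X))), ?_⟩
  rw [hd]
  have e : (C (2 * (s ^ 2 - 4))⁻¹ : k[X]) * C (2 * (s ^ 2 - 4)) = 1 := by
    rw [← C_mul, inv_mul_cancel₀ hK, C_1]
  have e2 : (C (2 * (s ^ 2 - 4)) : k[X]) = 2 * (C s ^ 2 - 4) := by
    simp only [map_mul, map_sub, map_pow, map_ofNat]
  unfold Fp
  linear_combination e + (C (2 * (s ^ 2 - 4))⁻¹ : k[X]) * ((X ^ 3 + C s * X) * X) * e2

theorem kit_Fp_squarefree {s : k} (hs : s ^ 2 ≠ 4) : Squarefree (Fp s) :=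
  (kit_Fp_separable hs).squarefree

end

section

variable {k : Type} [Field k]

theorem kit_der_poly (δ : Derivation ℤ (RatFunc k) (RatFunc k)) (hδ : δ RatFunc.X = 1)
    (hδc : ∀ c : k, δ (RatFunc.C c) = 0) (P : k[X]) :
    δ (algebraMap k[X] (RatFunc k) P) = algebraMap k[X] (RatFunc k) (derivative P) := by
  induction P using Polynomial.induction_on' with
  | add p q hp hq => rw [map_add, map_add, hp, hq, map_add, map_add]
  | monomial n a =>
    have h1 : algebraMap k[X] (RatFunc k) (C a * X ^ n) = RatFunc.C a * RatFunc.X ^ n := by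
      rw [map_mul, map_pow, RatFunc.algebraMap_X, RatFunc.algebraMap_C]
    have h2 : algebraMap k[X] (RatFunc k) (C (a * n) * X ^ (n - 1)) =
        RatFunc.C a * (n : RatFunc k) * RatFunc.X ^ (n - 1) := by
      rw [map_mul, map_pow, RatFunc.algebraMap_X, RatFunc.algebraMap_C, map_mul, map_natCast]
    rw [← C_mul_X_pow_eq_monomial, derivative_C_mul_X_pow, h1, h2, Derivation.leibniz, hδc,
      Derivation.leibniz_pow, hδ]
    simp only [smul_eq_mul, mul_zero, add_zero, mul_one, nsmul_eq_mul]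
    ring

/-- If `F` is squarefree and `F Z ^ 2` is a polynomial, then `Z` is a polynomial. -/
theorem kit_sq (F G : k[X]) (hF : Squarefree F) (Z : RatFunc k)
    (h : algebraMap k[X] (RatFunc k) F * Z ^ 2 = algebraMap k[X] (RatFunc k) G) :
    ∃ z : k[X], Z = algebraMap k[X] (RatFunc k) z := by
  have hF0 : F ≠ 0 := hF.ne_zero
  have hd0 : Z.denom ≠ 0 := Z.denom_ne_zero
  have hd : algebraMap k[X] (RatFunc k) Z.denom ≠ 0 :=
    (map_ne_zero_iff _ (RatFunc.algebraMap_injective k)).2 hd0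
  have hZ : Z = algebraMap k[X] (RatFunc k) Z.num / algebraMap k[X] (RatFunc k) Z.denom :=
    (RatFunc.num_div_denom Z).symm
  have h1 : F * Z.num ^ 2 = G * Z.denom ^ 2 := by
    apply RatFunc.algebraMap_injective k
    simp only [map_mul, map_pow]
    rw [← h]
    nth_rewrite 2 [hZ]
    field_simp
  have hcop : IsCoprime (Z.denom ^ 2) (Z.num ^ 2) :=
    (RatFunc.isCoprime_num_denom Z).symm.pow
  have h2 : Z.denom ^ 2 ∣ F := by
    apply hcop.dvd_of_dvd_mul_right
    rw [h1]
    exact dvd_mul_left _ _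
  have h3 : IsUnit Z.denom := by
    rw [sq] at h2
    exact hF _ h2
  obtain ⟨u, hu⟩ := h3.exists_right_inv
  refine ⟨Z.num * u, ?_⟩
  have h4 : algebraMap k[X] (RatFunc k) Z.denom * algebraMap k[X] (RatFunc k) u = 1 := by
    rw [← map_mul, hu, map_one]
  rw [map_mul]
  nth_rewrite 1 [hZ]
  rw [div_eq_iff hd]
  linear_combination (-(algebraMap k[X] (RatFunc k) Z.num)) * h4

end

end PicJump

end
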